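import Mathlib

/-!
# A torsion-free Hopfian group that is not co-finitely injective

`V` is the group of polynomials over `ℚ`, `D` the map `p ↦ (p - p(0)) / X`, and `L` the subgroup of
the integral polynomials whose coefficients other than the constant one are even. The group is
`{(a + c + d, b + c + D d)}` with `a ∈ L[1/3]`, `b ∈ L[1/5]`, `c ∈ L[1/7]`, `d ∈ L[1/11]`.
-/

set_option autoImplicit false

open Polynomial

noncomputable section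

namespace Pool.Agent.Results.MP_f7162b_al.HopfianNotCofInj

/-- the shift -/
def D : ℚ[X] →+ ℚ[X] := divX_hom

lemma coeff_D (p : ℚ[X]) (n : ℕ) : (D p).coeff n = p.coeff (n + 1) := coeff_divX

lemma D_X_mul (p : ℚ[X]) : D (X * p) = p := by
  ext n
  rw [coeff_D, coeff_X_mul]

lemma D_C (r : ℚ) : D (C r) = 0 := by
  ext n
  rw [coeff_D, coeff_C_succ, coeff_zero]

/-- the lattice -/
def L : AddSubgroup ℚ[X] where
  carrier := {v | (∃ k : ℤ, v.coeff 0 = k) ∧ ∀ i, ∃ k : ℤ, v.coeff (i + 1) = 2 * k}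
  zero_mem' := ⟨⟨0, by simp⟩, fun i => ⟨0, by simp⟩⟩
  add_mem' := by
    rintro a b ⟨⟨k, hk⟩, h⟩ ⟨⟨k', hk'⟩, h'⟩
    refine ⟨⟨k + k', by rw [coeff_add, hk, hk']; push_cast; ring⟩, fun i => ?_⟩
    obtain ⟨m, hm⟩ := h i
    obtain ⟨m', hm'⟩ := h' i
    exact ⟨m + m', by rw [coeff_add, hm, hm']; push_cast; ring⟩
  neg_mem' := by
    rintro a ⟨⟨k, hk⟩, h⟩
    refine ⟨⟨-k, by rw [coeff_neg, hk]; push_cast; ring⟩, fun i => ?_⟩
    obtain ⟨m, hm⟩ := h i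
    exact ⟨-m, by rw [coeff_neg, hm]; push_cast; ring⟩

lemma mem_L {v : ℚ[X]} : v ∈ L ↔
    (∃ k : ℤ, v.coeff 0 = k) ∧ ∀ i, ∃ k : ℤ, v.coeff (i + 1) = 2 * k := Iff.rfl

lemma L_int {v : ℚ[X]} (h : v ∈ L) (i : ℕ) : ∃ k : ℤ, v.coeff i = k := by
  cases i with
  | zero => exact h.1
  | succ i =>
    obtain ⟨k, hk⟩ := h.2 i
    exact ⟨2 * k, by rw [hk]; push_cast; ring⟩

lemma D_mem_L {v : ℚ[X]} (h : v ∈ L) : D v ∈ L := by
  refine ⟨?_, fun i => ?_⟩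
  · rw [coeff_D]
    exact L_int h 1
  · rw [coeff_D]
    exact h.2 (i + 1)

/-- the lattice localised at the powers of `q` -/
def Lq (q : ℕ) : AddSubgroup ℚ[X] where
  carrier := {v | ∃ n : ℕ, q ^ n • v ∈ L}
  zero_mem' := ⟨0, by simp⟩
  add_mem' := by
    rintro a b ⟨n, hn⟩ ⟨m, hm⟩
    refine ⟨n + m, ?_⟩
    rw [smul_add]
    refine add_mem ?_ ?_
    · rw [pow_add, mul_comm, mul_smul]
      exact nsmul_mem hn _
    · rw [pow_add, mul_smul]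
      exact nsmul_mem hm _
  neg_mem' := by
    rintro a ⟨n, hn⟩
    exact ⟨n, by rw [smul_neg]; exact neg_mem hn⟩

lemma L_le_Lq {q : ℕ} {v : ℚ[X]} (h : v ∈ L) : v ∈ Lq q := ⟨0, by simpa using h⟩

lemma D_mem_Lq {q : ℕ} {v : ℚ[X]} (h : v ∈ Lq q) : D v ∈ Lq q := by
  obtain ⟨n, hn⟩ := h
  exact ⟨n, by rw [← map_nsmul]; exact D_mem_L hn⟩

/-- the vector in `V × V` attached to `a, b, c, d` -/
def vec (a b c d : ℚ[X]) : ℚ[X] × ℚ[X] := (a + c + d, b + c + D d)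

/-- the group -/
def G : AddSubgroup (ℚ[X] × ℚ[X]) where
  carrier := {w | ∃ a ∈ Lq 3, ∃ b ∈ Lq 5, ∃ c ∈ Lq 7, ∃ d ∈ Lq 11, w = vec a b c d}
  zero_mem' := ⟨0, zero_mem _, 0, zero_mem _, 0, zero_mem _, 0, zero_mem _, by
    ext1 <;> simp [vec]⟩
  add_mem' := by
    rintro _ _ ⟨a, ha, b, hb, c, hc, d, hd, rfl⟩ ⟨a', ha', b', hb', c', hc', d', hd', rfl⟩
    refine ⟨a + a', add_mem ha ha', b + b', add_mem hb hb', c + c', add_mem hc hc', d + d',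
      add_mem hd hd', ?_⟩
    ext1
    · simp only [vec, Prod.fst_add]
      abel
    · simp only [vec, Prod.snd_add, map_add]
      abel
  neg_mem' := by
    rintro _ ⟨a, ha, b, hb, c, hc, d, hd, rfl⟩
    refine ⟨-a, neg_mem ha, -b, neg_mem hb, -c, neg_mem hc, -d, neg_mem hd, ?_⟩
    ext1
    · simp only [vec, Prod.fst_neg]
      abel
    · simp only [vec, Prod.snd_neg, map_neg]
      abel

/-- a rational number with a denominator dividing a power of `m` -/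
def Den (m : ℤ) (r : ℚ) : Prop := ∃ (n : ℕ) (k : ℤ), m ^ n * r = k

lemma Den.add {m : ℤ} {r s : ℚ} (hr : Den m r) (hs : Den m s) : Den m (r + s) := by
  obtain ⟨n, k, h⟩ := hr
  obtain ⟨n', k', h'⟩ := hs
  refine ⟨n + n', m ^ n' * k + m ^ n * k', ?_⟩
  push_cast
  rw [← h, ← h', pow_add]
  ring

lemma Den.neg {m : ℤ} {r : ℚ} (hr : Den m r) : Den m (-r) := by
  obtain ⟨n, k, h⟩ := hr
  exact ⟨n, -k, by push_cast; rw [← h]; ring⟩

lemma Den.mul {m : ℤ} {r : ℚ} (t : ℤ) (hr : Den m r) : Den (m * t) r := by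
  obtain ⟨n, k, h⟩ := hr
  refine ⟨n, t ^ n * k, ?_⟩
  push_cast
  rw [← h, mul_pow]
  ring

lemma den_Lq {q : ℕ} {v : ℚ[X]} (h : v ∈ Lq q) (i : ℕ) : Den q (v.coeff i) := by
  obtain ⟨n, hn⟩ := h
  obtain ⟨k, hk⟩ := L_int hn i
  refine ⟨n, k, ?_⟩
  rw [← hk, coeff_smul, nsmul_eq_mul]
  push_cast
  rfl

/-- a number divisible by all powers of `q`, with quotients of bounded denominators prime to `q` -/
lemma eq_zero_of_div {q : ℕ} (hq : 1 < q) {m : ℤ} (hm : IsCoprime (q : ℤ) m) {r : ℚ}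
    (h : ∀ n : ℕ, ∃ s : ℚ, (q : ℚ) ^ n * s = r ∧ Den m s) : r = 0 := by
  have key : ∀ n : ℕ, (q : ℤ) ^ n ∣ r.num := by
    intro n
    obtain ⟨s, hs, l, k, hk⟩ := h n
    have h1 : ((m ^ l * r.num : ℤ) : ℚ) = ((q ^ n * (k * r.den) : ℤ) : ℚ) := by
      have h2 : (r.num : ℚ) = r * r.den := (Rat.mul_den_eq_num r).symm
      push_cast
      rw [h2, ← hs, ← hk]
      ring
    have h3 : m ^ l * r.num = (q : ℤ) ^ n * (k * r.den) := by exact_mod_cast h1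
    have h4 : (q : ℤ) ^ n ∣ m ^ l * r.num := ⟨_, h3⟩
    exact (hm.pow (m := n) (n := l)).dvd_of_dvd_mul_left h4
  have h5 : r.num = 0 := by
    by_contra hne
    have h6 := Int.natAbs_le_of_dvd_ne_zero (key r.num.natAbs) hne
    rw [Int.natAbs_pow, Int.natAbs_natCast] at h6
    exact absurd h6 (not_le.2 (Nat.lt_pow_self hq))
  exact Rat.num_eq_zero.1 h5

lemma div_prop {q : ℕ} (hq : 1 < q) {m : ℤ} (hm : IsCoprime (q : ℤ) m) (F : ℚ[X] × ℚ[X] →+ ℚ[X])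
    (hF : ∀ w ∈ G, ∀ i, Den m ((F w).coeff i)) {w : ℚ[X] × ℚ[X]}
    (h : ∀ n : ℕ, ∃ w' ∈ G, q ^ n • w' = w) : F w = 0 := by
  ext i
  rw [coeff_zero]
  refine eq_zero_of_div hq hm fun n => ?_
  obtain ⟨w', hw', e⟩ := h n
  refine ⟨(F w').coeff i, ?_, hF w' hw' i⟩
  rw [← e, map_nsmul, coeff_smul, nsmul_eq_mul]
  push_cast
  rfl

/-- membership in `2 ℤ_(2)` -/
def E2 : AddSubgroup ℚ where
  carrier := {r | ∃ N k : ℤ, Odd N ∧ N * r = 2 * k}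
  zero_mem' := ⟨1, 0, odd_one, by simp⟩
  add_mem' := by
    rintro r s ⟨N, k, hN, h⟩ ⟨N', k', hN', h'⟩
    refine ⟨N * N', N' * k + N * k', hN.mul hN', ?_⟩
    push_cast
    linear_combination (N' : ℚ) * h + (N : ℚ) * h'
  neg_mem' := by
    rintro r ⟨N, k, hN, h⟩
    refine ⟨N, -k, hN, ?_⟩
    push_cast
    linear_combination -h

lemma odd_notMem_E2 {m : ℤ} (hm : Odd m) : (m : ℚ) ∉ E2 := by
  rintro ⟨N, k, hN, h⟩
  have h1 : N * m = 2 * k := by exact_mod_cast h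
  have h2 : Odd (2 * k) := h1 ▸ hN.mul hm
  exact (Int.not_odd_iff_even.2 (even_two_mul k)) h2

lemma E2_Lq {q : ℕ} (hq : Odd q) {v : ℚ[X]} (h : v ∈ Lq q) (i : ℕ) : v.coeff (i + 1) ∈ E2 := by
  obtain ⟨n, hn⟩ := h
  obtain ⟨k, hk⟩ := hn.2 i
  refine ⟨(q : ℤ) ^ n, k, ?_, ?_⟩
  · exact Odd.pow (by exact_mod_cast hq)
  · rw [← hk, coeff_smul, nsmul_eq_mul]
    push_cast
    rfl

lemma E2_fst {w : ℚ[X] × ℚ[X]} (h : w ∈ G) (i : ℕ) : w.1.coeff (i + 1) ∈ E2 := by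
  obtain ⟨a, ha, b, hb, c, hc, d, hd, rfl⟩ := h
  show (a + c + d).coeff (i + 1) ∈ E2
  rw [coeff_add, coeff_add]
  exact add_mem (add_mem (E2_Lq (by decide) ha i) (E2_Lq (by decide) hc i))
    (E2_Lq (by decide) hd i)

/-- infinite divisibility -/
def Div (q : ℕ) (w : ℚ[X] × ℚ[X]) : Prop := ∀ n : ℕ, ∃ w' ∈ G, q ^ n • w' = w

lemma mem_G_a {a : ℚ[X]} (ha : a ∈ Lq 3) : (a, (0 : ℚ[X])) ∈ G :=
  ⟨a, ha, 0, zero_mem _, 0, zero_mem _, 0, zero_mem _, by ext1 <;> simp [vec]⟩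

lemma mem_G_b {b : ℚ[X]} (hb : b ∈ Lq 5) : ((0 : ℚ[X]), b) ∈ G :=
  ⟨0, zero_mem _, b, hb, 0, zero_mem _, 0, zero_mem _, by ext1 <;> simp [vec]⟩

lemma mem_G_c {c : ℚ[X]} (hc : c ∈ Lq 7) : (c, c) ∈ G :=
  ⟨0, zero_mem _, 0, zero_mem _, c, hc, 0, zero_mem _, by ext1 <;> simp [vec]⟩

lemma mem_G_d {d : ℚ[X]} (hd : d ∈ Lq 11) : (d, D d) ∈ G :=
  ⟨0, zero_mem _, 0, zero_mem _, 0, zero_mem _, d, hd, by ext1 <;> simp [vec]⟩

lemma exists_root {q : ℕ} (hq : 0 < q) {l : ℚ[X]} (hl : l ∈ L) (n : ℕ) :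
    ∃ l' ∈ Lq q, q ^ n • l' = l := by
  have h0 : ((q : ℚ) ^ n) ≠ 0 := pow_ne_zero _ (by exact_mod_cast hq.ne')
  have h1 : q ^ n • (((q : ℚ) ^ n)⁻¹ • l) = l := by
    rw [← Nat.cast_smul_eq_nsmul ℚ, smul_smul]
    push_cast
    rw [mul_inv_cancel₀ h0, one_smul]
  exact ⟨((q : ℚ) ^ n)⁻¹ • l, ⟨n, by rw [h1]; exact hl⟩, h1⟩

lemma div_a {l : ℚ[X]} (hl : l ∈ L) : Div 3 (l, 0) := by
  intro n
  obtain ⟨l', h, e⟩ := exists_root (q := 3) (by norm_num) hl n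
  exact ⟨(l', 0), mem_G_a h, by rw [Prod.smul_mk, e, smul_zero]⟩

lemma div_b {l : ℚ[X]} (hl : l ∈ L) : Div 5 (0, l) := by
  intro n
  obtain ⟨l', h, e⟩ := exists_root (q := 5) (by norm_num) hl n
  exact ⟨(0, l'), mem_G_b h, by rw [Prod.smul_mk, e, smul_zero]⟩

lemma div_c {l : ℚ[X]} (hl : l ∈ L) : Div 7 (l, l) := by
  intro n
  obtain ⟨l', h, e⟩ := exists_root (q := 7) (by norm_num) hl n
  exact ⟨(l', l'), mem_G_c h, by rw [Prod.smul_mk, e]⟩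

lemma div_d {l : ℚ[X]} (hl : l ∈ L) : Div 11 (l, D l) := by
  intro n
  obtain ⟨l', h, e⟩ := exists_root (q := 11) (by norm_num) hl n
  exact ⟨(l', D l'), mem_G_d h, by rw [Prod.smul_mk, ← map_nsmul, e]⟩

lemma Div.snd_eq_zero {w : ℚ[X] × ℚ[X]} (h : Div 3 w) : w.2 = 0 := by
  refine div_prop (q := 3) (m := 5 * 7 * 11) (by norm_num) (by norm_num)
    (AddMonoidHom.snd ℚ[X] ℚ[X]) ?_ h
  rintro _ ⟨a, ha, b, hb, c, hc, d, hd, rfl⟩ i
  show Den _ ((b + c + D d).coeff i)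
  rw [coeff_add, coeff_add]
  refine ((?_ : Den _ _).add ?_).add ?_
  · exact ((den_Lq hb i).mul 7).mul 11
  · have := ((den_Lq hc i).mul 5).mul 11
    convert this using 1
    norm_num
  · have := ((den_Lq (D_mem_Lq hd) i).mul 5).mul 7
    convert this using 1
    norm_num

lemma Div.fst_eq_zero {w : ℚ[X] × ℚ[X]} (h : Div 5 w) : w.1 = 0 := by
  refine div_prop (q := 5) (m := 3 * 7 * 11) (by norm_num) (by norm_num)
    (AddMonoidHom.fst ℚ[X] ℚ[X]) ?_ h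
  rintro _ ⟨a, ha, b, hb, c, hc, d, hd, rfl⟩ i
  show Den _ ((a + c + d).coeff i)
  rw [coeff_add, coeff_add]
  refine ((?_ : Den _ _).add ?_).add ?_
  · exact ((den_Lq ha i).mul 7).mul 11
  · have := ((den_Lq hc i).mul 3).mul 11
    convert this using 1
    norm_num
  · have := ((den_Lq hd i).mul 3).mul 7
    convert this using 1
    norm_num

lemma Div.fst_eq_snd {w : ℚ[X] × ℚ[X]} (h : Div 7 w) : w.1 = w.2 := by
  have := div_prop (q := 7) (m := 3 * 5 * 11) (by norm_num) (by norm_num)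
    (AddMonoidHom.fst ℚ[X] ℚ[X] - AddMonoidHom.snd ℚ[X] ℚ[X]) ?_ h
  · exact sub_eq_zero.1 this
  rintro _ ⟨a, ha, b, hb, c, hc, d, hd, rfl⟩ i
  show Den _ ((a + c + d - (b + c + D d)).coeff i)
  have e : a + c + d - (b + c + D d) = a + -b + (d + -D d) := by abel
  rw [e, coeff_add, coeff_add, coeff_add, coeff_neg, coeff_neg]
  refine ((?_ : Den _ _).add ?_).add (((?_ : Den _ _).add ?_))
  · exact ((den_Lq ha i).mul 5).mul 11
  · have := (((den_Lq hb i).mul 3).mul 11).neg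
    convert this using 1
    norm_num
  · have := ((den_Lq hd i).mul 3).mul 5
    convert this using 1
    norm_num
  · have := (((den_Lq (D_mem_Lq hd) i).mul 3).mul 5).neg
    convert this using 1
    norm_num

lemma Div.snd_eq_D {w : ℚ[X] × ℚ[X]} (h : Div 11 w) : w.2 = D w.1 := by
  have := div_prop (q := 11) (m := 3 * 5 * 7) (by norm_num) (by norm_num)
    (AddMonoidHom.snd ℚ[X] ℚ[X] - D.comp (AddMonoidHom.fst ℚ[X] ℚ[X])) ?_ h
  · exact sub_eq_zero.1 this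
  rintro _ ⟨a, ha, b, hb, c, hc, d, hd, rfl⟩ i
  show Den _ ((b + c + D d - D (a + c + d)).coeff i)
  have e : b + c + D d - D (a + c + d) = b + c + (-D a + -D c) := by
    rw [map_add, map_add]
    abel
  rw [e, coeff_add, coeff_add, coeff_add, coeff_neg, coeff_neg]
  refine ((?_ : Den _ _).add ?_).add (((?_ : Den _ _).add ?_))
  · have := ((den_Lq hb i).mul 3).mul 7
    convert this using 1
    norm_num
  · have := ((den_Lq hc i).mul 3).mul 5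
    convert this using 1
    norm_num
  · have := (((den_Lq (D_mem_Lq ha) i).mul 5).mul 7).neg
    convert this using 1
    norm_num
  · have := (((den_Lq (D_mem_Lq hc) i).mul 3).mul 5).neg
    convert this using 1
    norm_num

/-- clearing denominators by an odd number -/
lemma exists_odd_nsmul {w : ℚ[X] × ℚ[X]} (h : w ∈ G) :
    ∃ N : ℕ, Odd N ∧ (N • w).1 ∈ L ∧ (N • w).2 ∈ L := by
  obtain ⟨a, ⟨n1, h1⟩, b, ⟨n2, h2⟩, c, ⟨n3, h3⟩, d, ⟨n4, h4⟩, rfl⟩ := h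
  have h5 : 11 ^ n4 • D d ∈ L := by rw [← map_nsmul]; exact D_mem_L h4
  have m1 : ∀ (v : ℚ[X]), 3 ^ n1 • v ∈ L → (3 ^ n1 * 5 ^ n2 * 7 ^ n3 * 11 ^ n4) • v ∈ L := by
    intro v hv
    have e : 3 ^ n1 * 5 ^ n2 * 7 ^ n3 * 11 ^ n4 = (5 ^ n2 * 7 ^ n3 * 11 ^ n4) * 3 ^ n1 := by ring
    rw [e, mul_smul]
    exact nsmul_mem hv _
  have m2 : ∀ (v : ℚ[X]), 5 ^ n2 • v ∈ L → (3 ^ n1 * 5 ^ n2 * 7 ^ n3 * 11 ^ n4) • v ∈ L := by
    intro v hv
    have e : 3 ^ n1 * 5 ^ n2 * 7 ^ n3 * 11 ^ n4 = (3 ^ n1 * 7 ^ n3 * 11 ^ n4) * 5 ^ n2 := by ring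
    rw [e, mul_smul]
    exact nsmul_mem hv _
  have m3 : ∀ (v : ℚ[X]), 7 ^ n3 • v ∈ L → (3 ^ n1 * 5 ^ n2 * 7 ^ n3 * 11 ^ n4) • v ∈ L := by
    intro v hv
    have e : 3 ^ n1 * 5 ^ n2 * 7 ^ n3 * 11 ^ n4 = (3 ^ n1 * 5 ^ n2 * 11 ^ n4) * 7 ^ n3 := by ring
    rw [e, mul_smul]
    exact nsmul_mem hv _
  have m4 : ∀ (v : ℚ[X]), 11 ^ n4 • v ∈ L → (3 ^ n1 * 5 ^ n2 * 7 ^ n3 * 11 ^ n4) • v ∈ L := by
    intro v hv
    rw [mul_smul]
    exact nsmul_mem hv _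
  refine ⟨3 ^ n1 * 5 ^ n2 * 7 ^ n3 * 11 ^ n4, ?_, ?_, ?_⟩
  · refine ((Odd.mul ?_ ?_).mul ?_).mul ?_ <;> exact Odd.pow (by decide)
  · rw [Prod.smul_fst]
    show _ • (a + c + d) ∈ L
    rw [smul_add, smul_add]
    exact add_mem (add_mem (m1 a h1) (m3 c h3)) (m4 d h4)
  · rw [Prod.smul_snd]
    show _ • (b + c + D d) ∈ L
    rw [smul_add, smul_add]
    exact add_mem (add_mem (m2 b h2) (m3 c h3)) (m4 _ h5)

section Endo

variable (θ : G →+ G)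

lemma Div.map {q : ℕ} {w : ℚ[X] × ℚ[X]} (hw : w ∈ G) (h : Div q w) :
    Div q (θ ⟨w, hw⟩ : G) := by
  intro n
  obtain ⟨w', h', e⟩ := h n
  refine ⟨(θ ⟨w', h'⟩ : G), (θ ⟨w', h'⟩).2, ?_⟩
  have : (⟨w, hw⟩ : G) = q ^ n • ⟨w', h'⟩ := Subtype.ext e.symm
  rw [this, map_nsmul]
  rfl

/-- the first coordinate of `θ (l, 0)` -/
def al (l : L) : ℚ[X] := ((θ ⟨((l : ℚ[X]), 0), mem_G_a (L_le_Lq l.2)⟩ : G) : ℚ[X] × ℚ[X]).1

/-- the same as a homomorphism -/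
def alHom : L →+ ℚ[X] where
  toFun := al θ
  map_zero' := by
    have : (⟨(((0 : L) : ℚ[X]), 0), mem_G_a (L_le_Lq (0 : L).2)⟩ : G) = 0 := rfl
    rw [al, this, map_zero]
    rfl
  map_add' x y := by
    have : (⟨(((x + y : L) : ℚ[X]), 0), mem_G_a (L_le_Lq (x + y : L).2)⟩ : G) =
        ⟨((x : ℚ[X]), 0), mem_G_a (L_le_Lq x.2)⟩ + ⟨((y : ℚ[X]), 0), mem_G_a (L_le_Lq y.2)⟩ := by
      apply Subtype.ext
      ext1
      · rfl
      · simp
    rw [al, this, map_add]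
    rfl

lemma theta_a (l : L) : ((θ ⟨((l : ℚ[X]), 0), mem_G_a (L_le_Lq l.2)⟩ : G) : ℚ[X] × ℚ[X]) =
    (alHom θ l, 0) := by
  ext1
  · rfl
  · exact (Div.map θ (mem_G_a (L_le_Lq l.2)) (div_a l.2)).snd_eq_zero

lemma theta_b (l : L) : ((θ ⟨(0, (l : ℚ[X])), mem_G_b (L_le_Lq l.2)⟩ : G) : ℚ[X] × ℚ[X]) =
    (0, alHom θ l) := by
  have h1 := (Div.map θ (mem_G_b (L_le_Lq l.2)) (div_b l.2)).fst_eq_zero
  have h2 := (Div.map θ (mem_G_c (L_le_Lq l.2)) (div_c l.2)).fst_eq_snd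
  have e : (⟨((l : ℚ[X]), (l : ℚ[X])), mem_G_c (L_le_Lq l.2)⟩ : G) =
      ⟨((l : ℚ[X]), 0), mem_G_a (L_le_Lq l.2)⟩ + ⟨(0, (l : ℚ[X])), mem_G_b (L_le_Lq l.2)⟩ := by
    apply Subtype.ext
    ext1
    · simp
    · simp
  rw [e, map_add, AddSubgroup.coe_add, theta_a, Prod.fst_add, Prod.snd_add, h1, add_zero,
    zero_add] at h2
  ext1
  · exact h1
  · exact h2.symm

/-- the shift on the lattice -/
def DL (l : L) : L := ⟨D l, D_mem_L l.2⟩

lemma al_D (l : L) : alHom θ (DL l) = D (alHom θ l) := by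
  have h2 := (Div.map θ (mem_G_d (L_le_Lq l.2)) (div_d l.2)).snd_eq_D
  have e : (⟨((l : ℚ[X]), D (l : ℚ[X])), mem_G_d (L_le_Lq l.2)⟩ : G) =
      ⟨((l : ℚ[X]), 0), mem_G_a (L_le_Lq l.2)⟩ +
        ⟨(0, (DL l : ℚ[X])), mem_G_b (L_le_Lq (DL l).2)⟩ := by
    apply Subtype.ext
    ext1
    · simp
    · simp [DL]
  rw [e, map_add, AddSubgroup.coe_add, theta_a, theta_b, Prod.fst_add, Prod.snd_add, add_zero,
    zero_add] at h2
  exact h2

lemma theta_formula (g : G) : ∃ N : ℕ, Odd N ∧ ∃ l1 l2 : L,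
    ((N • g : G) : ℚ[X] × ℚ[X]) = ((l1 : ℚ[X]), (l2 : ℚ[X])) ∧
    ((N • θ g : G) : ℚ[X] × ℚ[X]) = (alHom θ l1, alHom θ l2) := by
  obtain ⟨N, hN, h1, h2⟩ := exists_odd_nsmul g.2
  refine ⟨N, hN, ⟨_, h1⟩, ⟨_, h2⟩, rfl, ?_⟩
  have e : N • g = ⟨(((⟨_, h1⟩ : L) : ℚ[X]), 0), mem_G_a (L_le_Lq h1)⟩ +
        ⟨(0, ((⟨_, h2⟩ : L) : ℚ[X])), mem_G_b (L_le_Lq h2)⟩ := by
    apply Subtype.ext
    ext1
    · simp
    · simp
  rw [← map_nsmul, e, map_add, AddSubgroup.coe_add, theta_a, theta_b]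
  ext1
  · simp
  · simp

/-- the constant polynomials -/
def cst (k : ℤ) : L := ⟨C (k : ℚ), ⟨k, by simp⟩, fun i => ⟨0, by rw [coeff_C_succ]; simp⟩⟩

lemma cst_eq (k : ℤ) : cst k = k • cst 1 := by
  apply Subtype.ext
  rw [AddSubgroup.coe_zsmul]
  show C (k : ℚ) = k • C ((1 : ℤ) : ℚ)
  rw [← Int.cast_smul_eq_zsmul ℚ, ← C_mul']
  simp

lemma DL_cst (k : ℤ) : DL (cst k) = 0 := Subtype.ext (D_C _)

lemma D_eq_zero {v : ℚ[X]} (h : D v = 0) : v = C (v.coeff 0) := by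
  ext n
  cases n with
  | zero => simp
  | succ n => rw [← coeff_D, h, coeff_C_succ, coeff_zero]

lemma al_one : alHom θ (cst 1) = C ((alHom θ (cst 1)).coeff 0) := by
  apply D_eq_zero
  rw [← al_D, DL_cst, map_zero]

/-- if `α 1 ≠ 0` then `α` is injective -/
lemma al_injective (h : alHom θ (cst 1) ≠ 0) (l : L) (hl : alHom θ l = 0) : l = 0 := by
  have key : ∀ (n : ℕ) (l : L), (∀ i, n ≤ i → (l : ℚ[X]).coeff i = 0) → alHom θ l = 0 → l = 0 := by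
    intro n
    induction n with
    | zero =>
      intro l hn _
      apply Subtype.ext
      ext i
      rw [hn i (Nat.zero_le i)]
      rfl
    | succ n ih =>
      intro l hn h0
      have h1 : DL l = 0 := by
        refine ih (DL l) (fun i hi => ?_) ?_
        · show (D (l : ℚ[X])).coeff i = 0
          rw [coeff_D]
          exact hn _ (Nat.succ_le_succ hi)
        · rw [al_D, h0, map_zero]
      have h2 : D (l : ℚ[X]) = 0 := congrArg Subtype.val h1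
      have h3 := D_eq_zero h2
      obtain ⟨k, hk⟩ := l.2.1
      rw [hk] at h3
      have h4 : l = cst k := Subtype.ext h3
      rw [h4, cst_eq, map_zsmul] at h0
      rcases smul_eq_zero.1 h0 with h5 | h5
      · rw [h4, h5]
        apply Subtype.ext
        show C ((0 : ℤ) : ℚ) = 0
        simp
      · exact absurd h5 h
  refine key ((l : ℚ[X]).natDegree + 1) l (fun i hi => ?_) hl
  exact coeff_eq_zero_of_natDegree_lt (Nat.lt_of_succ_le hi)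

lemma theta_injective (h : alHom θ (cst 1) ≠ 0) : Function.Injective θ := by
  rw [injective_iff_map_eq_zero]
  intro g hg
  obtain ⟨N, hN, l1, l2, e1, e2⟩ := theta_formula θ g
  rw [hg, smul_zero] at e2
  have h1 : alHom θ l1 = 0 := (congrArg Prod.fst e2).symm
  have h2 : alHom θ l2 = 0 := (congrArg Prod.snd e2).symm
  rw [al_injective θ h l1 h1, al_injective θ h l2 h2] at e1
  have e3 : N • (g : ℚ[X] × ℚ[X]) = 0 := e1
  apply Subtype.ext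
  rcases smul_eq_zero.1 e3 with h5 | h5
  · exact absurd h5 hN.pos.ne'
  · exact h5

/-- if `α 1 = 0` then `α l` has an even constant coefficient -/
lemma al_even (h : alHom θ (cst 1) = 0) (l : L) : (alHom θ l).coeff 0 ∈ E2 := by
  obtain ⟨k, hk⟩ := l.2.1
  have h1 : X * ((l : ℚ[X]) - C (k : ℚ)) ∈ L := by
    refine ⟨⟨0, by simp⟩, fun i => ?_⟩
    rw [coeff_X_mul, coeff_sub]
    cases i with
    | zero => exact ⟨0, by simp [hk]⟩
    | succ i =>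
      obtain ⟨m, hm⟩ := l.2.2 i
      exact ⟨m, by rw [hm, coeff_C_succ, sub_zero]⟩
  have h2 : l = cst k + DL ⟨_, h1⟩ := by
    apply Subtype.ext
    show (l : ℚ[X]) = C (k : ℚ) + D (X * ((l : ℚ[X]) - C (k : ℚ)))
    rw [D_X_mul]
    abel
  rw [h2, map_add, cst_eq, map_zsmul, h, smul_zero, zero_add, al_D, coeff_D]
  have h3 := E2_fst (θ ⟨(_, 0), mem_G_a (L_le_Lq h1)⟩).2 0
  rw [theta_a θ ⟨_, h1⟩] at h3
  exact h3

lemma theta_not_surjective (h : alHom θ (cst 1) = 0) : ¬ Function.Surjective θ := by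
  intro hs
  obtain ⟨g, hg⟩ := hs ⟨(((cst 1 : L) : ℚ[X]), 0), mem_G_a (L_le_Lq (cst 1).2)⟩
  obtain ⟨N, hN, l1, l2, e1, e2⟩ := theta_formula θ g
  rw [hg] at e2
  have h1 : N • ((cst 1 : L) : ℚ[X]) = alHom θ l1 := congrArg Prod.fst e2
  have h2 := al_even θ h l1
  rw [← h1, coeff_smul] at h2
  have h3 : N • ((cst 1 : L) : ℚ[X]).coeff 0 = ((N : ℤ) : ℚ) := by
    show N • (C ((1 : ℤ) : ℚ)).coeff 0 = _
    simp
  rw [h3] at h2
  exact odd_notMem_E2 (by exact_mod_cast hN) h2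

lemma hopfian (hs : Function.Surjective θ) : Function.Injective θ := by
  by_cases h : alHom θ (cst 1) = 0
  · exact absurd hs (theta_not_surjective θ h)
  · exact theta_injective θ h

end Endo

/-- the endomorphism `(D, D)` -/
def phi : G →+ G :=
  ((D.prodMap D).comp G.subtype).codRestrict G (by
    rintro ⟨_, a, ha, b, hb, c, hc, d, hd, rfl⟩
    refine ⟨D a, D_mem_Lq ha, D b, D_mem_Lq hb, D c, D_mem_Lq hc, D d, D_mem_Lq hd, ?_⟩
    show (D (a + c + d), D (b + c + D d)) = (D a + D c + D d, D b + D c + D (D d))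
    simp only [map_add])

lemma phi_coe (g : G) : ((phi g : G) : ℚ[X] × ℚ[X]) = (D (g : ℚ[X] × ℚ[X]).1,
    D (g : ℚ[X] × ℚ[X]).2) := rfl

lemma exists_rep {q : ℕ} (hq : Odd q) {a : ℚ[X]} (ha : a ∈ Lq q) :
    ∃ e : Fin 2, ∃ a' ∈ Lq q, a = ((cst (e : ℕ) : L) : ℚ[X]) + D a' := by
  obtain ⟨n, hn⟩ := ha
  obtain ⟨k, hk⟩ := hn.1
  have key : ∀ e : Fin 2, Even (k - (e : ℕ)) → ∃ e : Fin 2, ∃ a' ∈ Lq q,
      a = ((cst (e : ℕ) : L) : ℚ[X]) + D a' := by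
    intro e he
    have h0 : Even (k - q ^ n * (e : ℕ)) := by
      have h1 : k - (q : ℤ) ^ n * (e : ℕ) = (k - (e : ℕ)) - ((q : ℤ) ^ n - 1) * (e : ℕ) := by ring
      rw [h1]
      refine he.sub (Even.mul_right ?_ _)
      exact (Odd.pow (by exact_mod_cast hq)).sub_odd odd_one
    obtain ⟨m, hm⟩ := h0
    refine ⟨e, X * (a - ((cst (e : ℕ) : L) : ℚ[X])), ⟨n, ⟨0, by simp⟩, fun i => ?_⟩, ?_⟩
    · rw [coeff_smul, coeff_X_mul]
      cases i with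
      | zero =>
        refine ⟨m, ?_⟩
        rw [coeff_sub, smul_sub, ← coeff_smul, hk]
        show (k : ℚ) - q ^ n • (C (((e : ℕ) : ℤ) : ℚ)).coeff 0 = _
        rw [coeff_C_zero, nsmul_eq_mul]
        have h2 : ((k - q ^ n * (e : ℕ) : ℤ) : ℚ) = ((m + m : ℤ) : ℚ) := by rw [hm]
        push_cast at h2 ⊢
        linear_combination h2
      | succ i =>
        obtain ⟨m', hm'⟩ := hn.2 i
        refine ⟨m', ?_⟩
        rw [coeff_sub, smul_sub, ← coeff_smul, hm']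
        show _ - q ^ n • (C (((e : ℕ) : ℤ) : ℚ)).coeff (i + 1) = _
        rw [coeff_C_succ, smul_zero, sub_zero]
    · rw [D_X_mul]
      abel
  rcases Int.even_or_odd k with h | h
  · exact key 0 (by simpa using h)
  · exact key 1 (by simpa using h.sub_odd odd_one)

/-- the representatives of `G / φ(G)` -/
def rep (e : Fin 2 × Fin 2 × Fin 2 × Fin 2) : G :=
  ⟨vec (cst (e.1 : ℕ) : L) (cst (e.2.1 : ℕ) : L) (cst (e.2.2.1 : ℕ) : L) (cst (e.2.2.2 : ℕ) : L),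
    _, L_le_Lq (cst (e.1 : ℕ)).2, _, L_le_Lq (cst (e.2.1 : ℕ)).2, _,
    L_le_Lq (cst (e.2.2.1 : ℕ)).2, _, L_le_Lq (cst (e.2.2.2 : ℕ)).2, rfl⟩

lemma finite_quotient : Finite (G ⧸ phi.range) := by
  refine Finite.of_surjective (fun e => (QuotientAddGroup.mk (rep e) : G ⧸ phi.range)) ?_
  intro x
  obtain ⟨⟨_, a, ha, b, hb, c, hc, d, hd, rfl⟩, rfl⟩ := QuotientAddGroup.mk_surjective x
  obtain ⟨e1, a', ha', h1⟩ := exists_rep (by decide) ha
  obtain ⟨e2, b', hb', h2⟩ := exists_rep (by decide) hb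
  obtain ⟨e3, c', hc', h3⟩ := exists_rep (by decide) hc
  obtain ⟨e4, d', hd', h4⟩ := exists_rep (by decide) hd
  refine ⟨(e1, e2, e3, e4), ?_⟩
  rw [QuotientAddGroup.eq]
  refine ⟨⟨vec a' b' c' d', a', ha', b', hb', c', hc', d', hd', rfl⟩, ?_⟩
  apply Subtype.ext
  rw [phi_coe]
  show _ = -vec _ _ _ _ + vec a b c d
  rw [h1, h2, h3, h4]
  ext1
  · simp only [vec, map_add, Prod.fst_add, Prod.fst_neg]
    abel
  · simp only [vec, map_add, Prod.snd_add, Prod.snd_neg]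
    abel

/-- **There is a torsion-free Hopfian abelian group with an endomorphism of finite cokernel which is
not injective.** -/
theorem result : ∃ (G : Type) (_ : AddCommGroup G),
    (∀ (n : ℤ) (x : G), n ≠ 0 → n • x = 0 → x = 0) ∧
    (∀ θ : G →+ G, Function.Surjective θ → Function.Bijective θ) ∧
    ∃ φ : G →+ G, Finite (G ⧸ φ.range) ∧ ∃ x : G, x ≠ 0 ∧ φ x = 0 := by
  refine ⟨G, inferInstance, ?_, fun θ h => ⟨hopfian θ h, h⟩, phi, finite_quotient,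
    ⟨(((cst 1 : L) : ℚ[X]), 0), mem_G_a (L_le_Lq (cst 1).2)⟩, ?_, ?_⟩
  · intro n x hn h
    exact (smul_eq_zero.1 h).resolve_left hn
  · intro h
    have h1 : C ((1 : ℤ) : ℚ) = 0 := congrArg (fun g : G => (g : ℚ[X] × ℚ[X]).1) h
    simp at h1
  · apply Subtype.ext
    rw [phi_coe]
    ext1
    · exact D_C _
    · exact map_zero D

end Pool.Agent.Results.MP_f7162b_al.HopfianNotCofInj
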